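import Mathlib
import Pool.Agent.Lib.MP_ec2ab1_pr_h25b.Main
import Pool.Agent.Lib.MP_ec2ab1_pr_h25b.PW3

set_option autoImplicit false
open MeasureTheory ProbabilityTheory
open scoped ENNReal

/-- Q1 for laws with bounded density with respect to the Gaussian one: if `X ~ μ` has variance one
and the law of `X - EX` is at most `13/4` times the standard normal law, then `X+Y` and `X+Z` have
densities `f` with `f log f` integrable, and `h(X+Y) ≤ h(X+Z)`. -/
theorem Pool.Agent.Results.MP_ec2ab1_pr.BoundedRatioQ1.result :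
    ∀ μ : Measure ℝ, IsProbabilityMeasure μ →
      MemLp (fun x : ℝ => x) 2 μ →
      variance (fun x : ℝ => x) μ = 1 →
      μ.map (fun x => x - ∫ y, y ∂μ) ≤ (13 / 4 : ℝ≥0∞) • gaussianReal 0 1 →
      (μ.prod μ).map (fun p : ℝ × ℝ => p.1 + p.2) ≪ volume ∧
      Integrable (fun x : ℝ =>
        (((μ.prod μ).map (fun p : ℝ × ℝ => p.1 + p.2)).rnDeriv volume x).toReal *
          Real.log ((((μ.prod μ).map (fun p : ℝ × ℝ => p.1 + p.2)).rnDeriv volume x).toReal))
        volume ∧
      Integrable (fun x : ℝ =>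
        (((μ.prod (gaussianReal 0 1)).map (fun p : ℝ × ℝ => p.1 + p.2)).rnDeriv volume x).toReal *
          Real.log ((((μ.prod (gaussianReal 0 1)).map
            (fun p : ℝ × ℝ => p.1 + p.2)).rnDeriv volume x).toReal))
        volume ∧
      -∫ x : ℝ,
          (((μ.prod μ).map (fun p : ℝ × ℝ => p.1 + p.2)).rnDeriv volume x).toReal *
            Real.log ((((μ.prod μ).map (fun p : ℝ × ℝ => p.1 + p.2)).rnDeriv volume x).toReal)
        ≤
      -∫ x : ℝ,
          (((μ.prod (gaussianReal 0 1)).map (fun p : ℝ × ℝ => p.1 + p.2)).rnDeriv volume x).toReal *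
            Real.log ((((μ.prod (gaussianReal 0 1)).map
              (fun p : ℝ × ℝ => p.1 + p.2)).rnDeriv volume x).toReal) := by
  intro μ hp hμ hvar hdom
  have hM : (13 / 4 : ℝ≥0∞) = ENNReal.ofReal (13 / 4) := by
    rw [ENNReal.ofReal_div_of_pos (by norm_num)]
    norm_num
  rw [hM] at hdom
  refine Pool.Agent.Lib.MP_ec2ab1_pr_h25b.main_of_pointwise (M := 13 / 4) (a0 := 813 / 2500)
    (b0 := 829 / 2500) (c0 := 1691 / 5000) (a1 := 859 / 2000) (b1 := 301 / 2000) (c1 := 33 / 625)
    (by norm_num) (by norm_num) (by norm_num) (by norm_num) (by norm_num) (by norm_num)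
    (by norm_num) (fun u v hv0 hvM hu0 hul hu =>
      Pool.Agent.Lib.MP_ec2ab1_pr_h25b.PW3.pointwise hv0 hvM hu0 hul hu) μ hμ hvar hdom
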