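import Mathlib
import Pool.Agent.Lib.MP_ec2ab1_pr_h53q2.Final

set_option autoImplicit false
open MeasureTheory ProbabilityTheory
open scoped ENNReal

/-- Q2 for laws comparable to the Gaussian one: if `X ~ μ` has variance one and the law of `X - EX`
lies between `m` and `M` times the standard normal law, with `0 < m` and `M ^ 2 ≤ (9 / 4) * m`,
then `I(X+Z) ≤ I(X+Y)`. -/
theorem Pool.Agent.Results.MP_ec2ab1_pr.BoundedRatioQ2.result :
    ∀ (μ : Measure ℝ) (m M : ℝ), IsProbabilityMeasure μ →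
      MemLp (fun x : ℝ => x) 2 μ →
      variance (fun x : ℝ => x) μ = 1 →
      0 < m → M ^ 2 ≤ 9 / 4 * m →
      ENNReal.ofReal m • gaussianReal 0 1 ≤ μ.map (fun x => x - ∫ y, y ∂μ) →
      μ.map (fun x => x - ∫ y, y ∂μ) ≤ ENNReal.ofReal M • gaussianReal 0 1 →
      Pool.Agent.Lib.MP_ec2ab1_pr_h53q2.fisher
          ((μ.prod (gaussianReal 0 1)).map (fun p : ℝ × ℝ => p.1 + p.2)) ≤
        Pool.Agent.Lib.MP_ec2ab1_pr_h53q2.fisher
          ((μ.prod μ).map (fun p : ℝ × ℝ => p.1 + p.2)) := by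
  intro μ m M hprob hμ hvar hm hM hlow hdom
  exact Pool.Agent.Lib.MP_ec2ab1_pr_h53q2.fisher_ineq hm hM μ hμ hvar hlow hdom
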