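import Pool.Agent.Lib.MP_ec2ab1_pr.Final

set_option autoImplicit false
open MeasureTheory ProbabilityTheory

/-- Q1 for self-decomposable laws, with an explicit deficit: if `X ~ μ` has variance one and
`X` has, for every `0 < a < 1`, the law of `a X + ξ` with `ξ` independent of `X`, then
`h(X+Y) + (3/4) Var(U - V) ≤ h(X+Z)` for some coupling `(U, V)` of `X+Y` and `X+Z`. -/
theorem Pool.Agent.Results.MP_ec2ab1_pr.SelfDecomposableQ1.result :
    ∀ μ : Measure ℝ, IsProbabilityMeasure μ →
      MemLp (fun x : ℝ => x) 2 μ →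
      variance (fun x : ℝ => x) μ = 1 →
      (∀ a : ℝ, 0 < a → a < 1 → ∃ ν : Measure ℝ, IsProbabilityMeasure ν ∧
        μ = ((μ.map (fun x => a * x)).prod ν).map (fun p : ℝ × ℝ => p.1 + p.2)) →
      (μ.prod μ).map (fun p : ℝ × ℝ => p.1 + p.2) ≪ volume →
      Integrable (fun x : ℝ =>
        (((μ.prod μ).map (fun p : ℝ × ℝ => p.1 + p.2)).rnDeriv volume x).toReal *
          Real.log ((((μ.prod μ).map (fun p : ℝ × ℝ => p.1 + p.2)).rnDeriv volume x).toReal))
        volume →
      ∃ π : Measure (ℝ × ℝ), IsProbabilityMeasure π ∧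
        π.map Prod.fst = (μ.prod μ).map (fun p : ℝ × ℝ => p.1 + p.2) ∧
        π.map Prod.snd = (μ.prod (gaussianReal 0 1)).map (fun p : ℝ × ℝ => p.1 + p.2) ∧
        (-∫ x : ℝ,
            (((μ.prod μ).map (fun p : ℝ × ℝ => p.1 + p.2)).rnDeriv volume x).toReal *
              Real.log ((((μ.prod μ).map (fun p : ℝ × ℝ => p.1 + p.2)).rnDeriv volume x).toReal))
          + 3 / 4 * variance (fun p : ℝ × ℝ => p.1 - p.2) π
          ≤
        -∫ x : ℝ,
            (((μ.prod (gaussianReal 0 1)).map (fun p : ℝ × ℝ => p.1 + p.2)).rnDeriv volume x).toReal *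
              Real.log ((((μ.prod (gaussianReal 0 1)).map
                (fun p : ℝ × ℝ => p.1 + p.2)).rnDeriv volume x).toReal) := by
  intro μ hp hμ hvar hsd hac hint
  exact Pool.Agent.MP_ec2ab1_pr.selfdecomp_entropy μ hμ hvar hsd hac hint
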