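import Pool.Agent.Lib.MP_ec2ab1_pr_h45.Two

set_option autoImplicit false
open MeasureTheory ProbabilityTheory

/-- Q1 for every law within two standard deviations of its mean. Let `X ~ μ` have variance one
and `|X - E X| ≤ 2` almost surely, let `Y` be an independent copy and `Z ~ N(0,1)` independent.
If `X + Y` has a density `g` with `g log g` integrable, then the density `r` of `X + Z` has
`r log r` integrable and `h(X + Y) ≤ h(X + Z)`. -/
theorem Pool.Agent.Results.MP_ec2ab1_pr.TwoSigma.result :
    ∀ μ : Measure ℝ, IsProbabilityMeasure μ →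
      variance (fun x : ℝ => x) μ = 1 →
      (∀ᵐ x ∂μ, |x - ∫ y, y ∂μ| ≤ 2) →
      (μ.prod μ).map (fun p : ℝ × ℝ => p.1 + p.2) ≪ volume →
      Integrable (fun x : ℝ =>
        (((μ.prod μ).map (fun p : ℝ × ℝ => p.1 + p.2)).rnDeriv volume x).toReal *
          Real.log ((((μ.prod μ).map (fun p : ℝ × ℝ => p.1 + p.2)).rnDeriv volume x).toReal))
        volume →
      Integrable (fun x : ℝ =>
        (((μ.prod (gaussianReal 0 1)).map (fun p : ℝ × ℝ => p.1 + p.2)).rnDeriv volume x).toReal *
          Real.log ((((μ.prod (gaussianReal 0 1)).map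
            (fun p : ℝ × ℝ => p.1 + p.2)).rnDeriv volume x).toReal))
        volume ∧
      -∫ x : ℝ,
          (((μ.prod μ).map (fun p : ℝ × ℝ => p.1 + p.2)).rnDeriv volume x).toReal *
            Real.log ((((μ.prod μ).map (fun p : ℝ × ℝ => p.1 + p.2)).rnDeriv volume x).toReal)
        ≤
      -∫ x : ℝ,
          (((μ.prod (gaussianReal 0 1)).map (fun p : ℝ × ℝ => p.1 + p.2)).rnDeriv volume x).toReal *
            Real.log ((((μ.prod (gaussianReal 0 1)).map
              (fun p : ℝ × ℝ => p.1 + p.2)).rnDeriv volume x).toReal) := by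
  intro μ hp hvar hb hac hint
  have hmem : MemLp (fun x : ℝ => x) 2 μ := by
    refine MemLp.of_bound (by fun_prop) (2 + |∫ y, y ∂μ|) ?_
    filter_upwards [hb] with x hx
    have h1 := abs_add_le (x - ∫ y, y ∂μ) (∫ y, y ∂μ)
    rw [sub_add_cancel] at h1
    rw [Real.norm_eq_abs]
    linarith
  exact Pool.Agent.Lib.MP_ec2ab1_pr_h45.Q1_of_cert (R := 2) (by norm_num)
    (fun P hP h0 h1 h2 => by
      have := hP
      exact Pool.Agent.Lib.MP_ec2ab1_pr_h45.cert_two h0 h1 h2)
    μ hmem hvar hb hac hint
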